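import Mathlib

set_option autoImplicit false

/-!
# Planarity of the non-smooth fan built from tilted combs

`F` is obtained from the Cantor comb `C_K` and the folded-back blades `C_L^n` (the blade at
`d = φ_n x ∈ K_n` leaves the top `(d, 1, 0)` of the blade of `C_K` at `d` and comes back down at
distance `≤ 1/n`) by collapsing the bottom segment.

We embed `F` in the plane. The blade of `C_K` at `x ∈ K` becomes the vertical segment over `x` of
height `2 - x`, so that a horizontal ray going to the right from the top of a blade misses all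
blades. The folded blade at `d ∈ K_n` first goes horizontally to the right from `(d, 2 - d)` to
`r_n d ∉ K`, then down. Images of folded blades are disjoint if the intervals `[d, r_n d]` are
nested or disjoint; `r_n` is an explicit function (`rr (k n)`) using the gaps of `K` of order
`k n`, and the nesting holds if the numbers `k n` increase fast enough. If `K_n ∩ K_m ≠ ∅`
(which is compatible with `F` being a fan if one of the two blades at the common point is
degenerate) one uses in addition a very slow reparametrisation `ψ` of the blades near their tops.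
Finally `(X, Y) ↦ (X Y, Y)` collapses the bottom segment.
-/

namespace Pool.Agent.Results.MP_4f06c8_gt.FanPlanar

open Set Filter
open scoped Topology

noncomputable section

/-! ### The problem -/

/-- The data of the construction: `h` is the height function of the comb `C_L` over the Cantor set
`K`, `Kn n` and `φ n` stand for `K_{n+1}` and `φ_{n+1}`. The further conditions of the problem
(density of the endpoints of `C_L`, nowhere density of the `K_n` in `K`, density of all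
selections `(d_n)`) are not needed and not assumed. -/
structure Choice where
  /-- the height function of the comb `C_L` -/
  h : cantorSet → ℝ
  usc : UpperSemicontinuous h
  mem : ∀ x, h x ∈ Icc (0 : ℝ) 1
  /-- the copies of the Cantor set inside the Cantor set -/
  Kn : ℕ → Set ℝ
  Kn_sub : ∀ n, Kn n ⊆ cantorSet
  /-- the homeomorphisms `K → K_n` -/
  φ : ∀ n, cantorSet ≃ₜ Kn n

/-- The part `C_L ∩ (K × [0,1])` of the comb above the Cantor set. -/
def Choice.blades (c : Choice) : Set (cantorSet × ℝ) := {q | 0 ≤ q.2 ∧ q.2 ≤ c.h q.1}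

/-- The collection `C_L^{n+1}` of tilted blades: the image of the comb under
`(x, y) ↦ (φ_{n+1} x, 1 - y / 2, y / (2 (n + 1)))`. -/
def Choice.tilted (c : Choice) (n : ℕ) : Set (ℝ × ℝ × ℝ) :=
  (fun q : cantorSet × ℝ => ((c.φ n q.1 : ℝ), 1 - q.2 / 2, q.2 / (2 * ((n : ℝ) + 1)))) '' c.blades

theorem Choice.mem_tilted {c : Choice} {n : ℕ} {p : ℝ × ℝ × ℝ} :
    p ∈ c.tilted n ↔ ∃ x : cantorSet, ∃ y : ℝ, (0 ≤ y ∧ y ≤ c.h x) ∧
      p = ((c.φ n x : ℝ), 1 - y / 2, y / (2 * ((n : ℝ) + 1))) := by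
  constructor
  · rintro ⟨⟨x, y⟩, hq, rfl⟩
    exact ⟨x, y, hq, rfl⟩
  · rintro ⟨x, y, hq, rfl⟩
    exact ⟨(x, y), hq, rfl⟩

/-- The segment `[0,1] × {0} × {0}`. -/
def base : Set (ℝ × ℝ × ℝ) := {p | p.1 ∈ Icc (0 : ℝ) 1 ∧ p.2.1 = 0 ∧ p.2.2 = 0}

/-- The planar part `C_K`. -/
def CK : Set (ℝ × ℝ × ℝ) :=
  {p | p.1 ∈ cantorSet ∧ p.2.1 ∈ Icc (0 : ℝ) 1 ∧ p.2.2 = 0} ∪ base

/-- The dendroid `C`. -/
def Choice.C (c : Choice) : Set (ℝ × ℝ × ℝ) := CK ∪ ⋃ n, c.tilted n

/-- The equivalence relation collapsing the segment `base` to a point. -/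
def Choice.collapse (c : Choice) : Setoid c.C where
  r p q := p = q ∨ ((p : ℝ × ℝ × ℝ) ∈ base ∧ (q : ℝ × ℝ × ℝ) ∈ base)
  iseqv :=
    { refl := fun p => Or.inl rfl
      symm := by
        rintro p q (rfl | ⟨h1, h2⟩)
        · exact Or.inl rfl
        · exact Or.inr ⟨h2, h1⟩
      trans := by
        rintro p q r (rfl | ⟨h1, h2⟩) (rfl | ⟨h3, h4⟩)
        · exact Or.inl rfl
        · exact Or.inr ⟨h3, h4⟩
        · exact Or.inr ⟨h1, h2⟩
        · exact Or.inr ⟨h1, h4⟩ }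

/-- The fan `F`: the quotient of `C` by the segment. -/
def Choice.F (c : Choice) : Type := Quotient c.collapse

instance (c : Choice) : TopologicalSpace c.F :=
  inferInstanceAs (TopologicalSpace (Quotient c.collapse))

/-- `X` is homeomorphic to a subset of the plane. -/
def Planar (X : Type) [TopologicalSpace X] : Prop :=
  ∃ f : X → EuclideanSpace ℝ (Fin 2), Topology.IsEmbedding f

/-- `p` is the vertex of a simple triod in `X`: three arcs meeting only in `p`. -/
def IsRamificationPoint {X : Type} [TopologicalSpace X] (p : X) : Prop :=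
  ∃ γ : Fin 3 → unitInterval → X, (∀ i, Continuous (γ i)) ∧ (∀ i, Function.Injective (γ i)) ∧
    (∀ i, γ i 0 = p) ∧ ∀ i j s t, i ≠ j → γ i s = γ j t → s = 0 ∧ t = 0

/-- No two folded blades start at the same point. -/
def Choice.Separated (c : Choice) : Prop :=
  ∀ n m, n ≠ m → ∀ x x' : cantorSet, (c.φ n x : ℝ) = c.φ m x' → c.h x ≤ 0 ∨ c.h x' ≤ 0

/-! ### Gaps of the Cantor set -/

theorem cantor_gap (k : ℕ) : ∀ (i : ℤ) (x : ℝ), x ∈ cantorSet →
    ¬ (((i : ℝ) + 1 / 3) / 3 ^ k < x ∧ x < ((i : ℝ) + 2 / 3) / 3 ^ k) := by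
  induction k with
  | zero =>
    intro i x hx ⟨h1, h2⟩
    simp only [pow_zero, div_one] at h1 h2
    have hI := cantorSet_subset_unitInterval hx
    have hi : i = 0 := by
      have a1 : (i : ℝ) < 1 := by linarith [hI.2]
      have a2 : (-1 : ℝ) < i := by linarith [hI.1]
      have a1' : i < 1 := by exact_mod_cast a1
      have a2' : -1 < i := by exact_mod_cast a2
      omega
    subst hi
    rw [cantorSet_eq_union_halves] at hx
    rcases hx with ⟨y, hy, rfl⟩ | ⟨y, hy, rfl⟩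
    · have := (cantorSet_subset_unitInterval hy).2
      simp only [Int.cast_zero] at h1
      linarith
    · have := (cantorSet_subset_unitInterval hy).1
      simp only [Int.cast_zero] at h2
      linarith
  | succ k ih =>
    intro i x hx ⟨h1, h2⟩
    have h3 : (0 : ℝ) < 3 ^ k := by positivity
    rw [pow_succ] at h1 h2
    rw [div_lt_iff₀ (by positivity)] at h1
    rw [lt_div_iff₀ (by positivity)] at h2
    rw [cantorSet_eq_union_halves] at hx
    rcases hx with ⟨y, hy, rfl⟩ | ⟨y, hy, rfl⟩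
    · refine ih i y hy ⟨?_, ?_⟩
      · rw [div_lt_iff₀ h3]
        dsimp only at h1
        nlinarith
      · rw [lt_div_iff₀ h3]
        dsimp only at h2
        nlinarith
    · refine ih (i - 2 * 3 ^ k) y hy ⟨?_, ?_⟩
      · rw [div_lt_iff₀ h3]
        dsimp only at h1
        push_cast
        nlinarith
      · rw [lt_div_iff₀ h3]
        dsimp only at h2
        push_cast
        nlinarith

/-- the grid point to the right of `d` -/
def gg (k : ℕ) (d : ℝ) : ℝ := ((⌊(3 : ℝ) ^ k * d + 1 / 2⌋ : ℝ) + 1 / 2) / 3 ^ k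

/-- the position of the vertical part of the arc leaving at `d` -/
def rr (k : ℕ) (d : ℝ) : ℝ := gg k d + (gg k d - d) / 8

theorem gg_gap (k : ℕ) (d : ℝ) {x : ℝ} (hx : x ∈ cantorSet) :
    x ≤ gg k d - 1 / (6 * 3 ^ k) ∨ gg k d + 1 / (6 * 3 ^ k) ≤ x := by
  by_contra hcon
  push Not at hcon
  have h3 : (0 : ℝ) < 3 ^ k := by positivity
  refine cantor_gap k ⌊(3 : ℝ) ^ k * d + 1 / 2⌋ x hx ⟨?_, ?_⟩
  · have : ((⌊(3 : ℝ) ^ k * d + 1 / 2⌋ : ℝ) + 1 / 3) / 3 ^ k = gg k d - 1 / (6 * 3 ^ k) := by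
      unfold gg; field_simp; ring
    rw [this]; exact hcon.1
  · have : ((⌊(3 : ℝ) ^ k * d + 1 / 2⌋ : ℝ) + 2 / 3) / 3 ^ k = gg k d + 1 / (6 * 3 ^ k) := by
      unfold gg; field_simp; ring
    rw [this]; exact hcon.2

theorem lt_gg (k : ℕ) (d : ℝ) : d < gg k d := by
  unfold gg
  have h3 : (0 : ℝ) < 3 ^ k := by positivity
  rw [lt_div_iff₀ h3]
  have := Int.lt_floor_add_one ((3 : ℝ) ^ k * d + 1 / 2)
  nlinarith

theorem gg_le (k : ℕ) (d : ℝ) : gg k d ≤ d + 1 / 3 ^ k := by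
  unfold gg
  have h3 : (0 : ℝ) < 3 ^ k := by positivity
  rw [div_le_iff₀ h3]
  have := Int.floor_le ((3 : ℝ) ^ k * d + 1 / 2)
  have e : (d + 1 / 3 ^ k) * 3 ^ k = 3 ^ k * d + 1 := by field_simp
  rw [e]
  linarith

theorem le_gg_of_mem (k : ℕ) {d : ℝ} (hd : d ∈ cantorSet) : d + 1 / (6 * 3 ^ k) ≤ gg k d := by
  rcases gg_gap k d hd with h | h
  · linarith
  · have := lt_gg k d
    have : (0 : ℝ) < 1 / (6 * 3 ^ k) := by positivity
    linarith

theorem gg_eq (k : ℕ) {d d' : ℝ} (h1 : d ≤ d') (h2 : d' < gg k d) : gg k d' = gg k d := by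
  have h3 : (0 : ℝ) < 3 ^ k := by positivity
  have : ⌊(3 : ℝ) ^ k * d' + 1 / 2⌋ = ⌊(3 : ℝ) ^ k * d + 1 / 2⌋ := by
    apply le_antisymm
    · have h4 : d' * 3 ^ k < (⌊(3 : ℝ) ^ k * d + 1 / 2⌋ : ℝ) + 1 / 2 := by
        unfold gg at h2
        rwa [lt_div_iff₀ h3] at h2
      have h5 : ⌊(3 : ℝ) ^ k * d' + 1 / 2⌋ < ⌊(3 : ℝ) ^ k * d + 1 / 2⌋ + 1 := by
        rw [Int.floor_lt]
        push_cast
        linarith
      omega
    · exact Int.floor_le_floor (by nlinarith)
  unfold gg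
  rw [this]

theorem lt_rr (k : ℕ) (d : ℝ) : d < rr k d := by
  have := lt_gg k d
  unfold rr
  linarith

theorem rr_sub_le (k : ℕ) (d : ℝ) : rr k d - d ≤ 9 / (8 * 3 ^ k) := by
  have := gg_le k d
  have e : (9 : ℝ) / (8 * 3 ^ k) = 9 / 8 * (1 / 3 ^ k) := by field_simp
  rw [e]
  unfold rr
  linarith

theorem le_rr_sub (k : ℕ) {d : ℝ} (hd : d ∈ cantorSet) : 1 / (8 * 3 ^ k) ≤ rr k d - d := by
  have := le_gg_of_mem k hd
  have e : (1 : ℝ) / (8 * 3 ^ k) = 1 / 8 * (1 / 3 ^ k) := by field_simp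
  have e' : (1 : ℝ) / (6 * 3 ^ k) = 1 / 6 * (1 / 3 ^ k) := by field_simp
  have : (0 : ℝ) < 1 / 3 ^ k := by positivity
  rw [e]
  unfold rr
  linarith

/-- no points of the Cantor set in `(r - γ, r]` -/
theorem rr_gap (k : ℕ) (d : ℝ) {x : ℝ} (hx : x ∈ cantorSet) (hxr : x ≤ rr k d) :
    x + 1 / (8 * 3 ^ k) < rr k d ∧ x < gg k d := by
  have h1 := gg_le k d
  have h2 := lt_gg k d
  have e : (1 : ℝ) / (8 * 3 ^ k) = 1 / 8 * (1 / 3 ^ k) := by field_simp
  have e' : (1 : ℝ) / (6 * 3 ^ k) = 1 / 6 * (1 / 3 ^ k) := by field_simp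
  have h0 : (0 : ℝ) < 1 / 3 ^ k := by positivity
  rw [e]
  unfold rr at *
  rcases gg_gap k d hx with h | h
  · rw [e'] at h
    constructor <;> linarith
  · rw [e'] at h
    linarith

theorem rr_notMem (k : ℕ) (d : ℝ) : rr k d ∉ cantorSet := by
  intro h
  have := (rr_gap k d h le_rfl).1
  have h0 : (0 : ℝ) < 1 / (8 * 3 ^ k) := by positivity
  linarith

theorem rr_laminar (k : ℕ) {d d' : ℝ} (hd' : d' ∈ cantorSet) (h1 : d < d') (h2 : d' ≤ rr k d) :
    rr k d' < rr k d := by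
  have h3 := (rr_gap k d hd' h2).2
  have h4 := gg_eq k h1.le h3
  unfold rr
  rw [h4]
  linarith

theorem continuousAt_rr (k : ℕ) {d : ℝ} (hd : d ∈ cantorSet) : ContinuousAt (rr k) d := by
  have h3 : (0 : ℝ) < 3 ^ k := by positivity
  have hfl : ContinuousAt (fun d : ℝ => (⌊(3 : ℝ) ^ k * d + 1 / 2⌋ : ℝ)) d := by
    have hne : (⌊(3 : ℝ) ^ k * d + 1 / 2⌋ : ℝ) < (3 : ℝ) ^ k * d + 1 / 2 := by
      refine lt_of_le_of_ne (Int.floor_le _) ?_
      intro h
      refine cantor_gap k (⌊(3 : ℝ) ^ k * d + 1 / 2⌋ - 1) d hd ⟨?_, ?_⟩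
      · rw [div_lt_iff₀ h3]
        push_cast
        linarith
      · rw [lt_div_iff₀ h3]
        push_cast
        linarith
    have hlt := Int.lt_floor_add_one ((3 : ℝ) ^ k * d + 1 / 2)
    have hc : ContinuousAt (fun d : ℝ => (3 : ℝ) ^ k * d + 1 / 2) d := by fun_prop
    have hev : ∀ᶠ y in 𝓝 d, (⌊(3 : ℝ) ^ k * y + 1 / 2⌋ : ℝ) = (⌊(3 : ℝ) ^ k * d + 1 / 2⌋ : ℝ) := by
      filter_upwards [hc.eventually (Ioo_mem_nhds hne hlt)] with y hy
      have : ⌊(3 : ℝ) ^ k * y + 1 / 2⌋ = ⌊(3 : ℝ) ^ k * d + 1 / 2⌋ := by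
        rw [Int.floor_eq_iff]
        exact ⟨hy.1.le, hy.2⟩
      rw [this]
    exact (continuousAt_const).congr (hev.mono fun y hy => hy.symm)
  have hg : ContinuousAt (gg k) d := by
    unfold gg
    exact (hfl.add continuousAt_const).div_const _
  unfold rr
  exact hg.add ((hg.sub continuousAt_id).div_const _)

/-! ### A slow homeomorphism of `[0, 2]` -/

/-- auxiliary positive function, small near `0` -/
def phi (c : ℕ → ℝ) (t : ℝ) : ℝ := ⨅ n, (c n + max 0 (t - (1 / 2) ^ n))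

theorem phi_bdd {c : ℕ → ℝ} (hc : ∀ n, 0 < c n) (t : ℝ) :
    BddBelow (range fun n => c n + max 0 (t - (1 / 2) ^ n)) := by
  refine ⟨0, ?_⟩
  rintro _ ⟨n, rfl⟩
  have := hc n
  have := le_max_left 0 (t - (1 / 2) ^ n)
  dsimp only
  linarith

theorem phi_le {c : ℕ → ℝ} (hc : ∀ n, 0 < c n) (n : ℕ) : phi c ((1 / 2) ^ n) ≤ c n := by
  have := ciInf_le (phi_bdd hc ((1 / 2) ^ n)) n
  simpa [phi] using this

theorem phi_lip {c : ℕ → ℝ} (hc : ∀ n, 0 < c n) (s t : ℝ) : phi c s ≤ phi c t + |s - t| := by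
  rw [← sub_le_iff_le_add]
  refine le_ciInf fun n => ?_
  have h1 := ciInf_le (phi_bdd hc s) n
  have h2 : max 0 (s - (1 / 2) ^ n) ≤ max 0 (t - (1 / 2) ^ n) + |s - t| := by
    have := le_abs_self (s - t)
    have := abs_nonneg (s - t)
    have := le_max_left 0 (t - (1 / 2) ^ n)
    have := le_max_right 0 (t - (1 / 2) ^ n)
    refine max_le ?_ ?_ <;> linarith
  have h3 : phi c s ≤ c n + max 0 (s - (1 / 2) ^ n) := h1
  linarith

theorem phi_mono {c : ℕ → ℝ} (hc : ∀ n, 0 < c n) : Monotone (phi c) := by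
  intro s t hst
  refine le_ciInf fun n => ?_
  have h1 : phi c s ≤ c n + max 0 (s - (1 / 2) ^ n) := ciInf_le (phi_bdd hc s) n
  have : max 0 (s - (1 / 2) ^ n) ≤ max 0 (t - (1 / 2) ^ n) := max_le_max le_rfl (by linarith)
  linarith

theorem phi_pos {c : ℕ → ℝ} (hc : ∀ n, 0 < c n) {t : ℝ} (ht : 0 < t) : 0 < phi c t := by
  obtain ⟨N, hN⟩ := exists_pow_lt_of_lt_one (half_pos ht) (by norm_num : (1 / 2 : ℝ) < 1)
  have hmin : ∀ M : ℕ, ∃ δ : ℝ, 0 < δ ∧ ∀ n < M, δ ≤ c n := by
    intro M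
    induction M with
    | zero => exact ⟨1, one_pos, fun n hn => absurd hn (Nat.not_lt_zero n)⟩
    | succ M ih =>
      obtain ⟨δ, hδ, h⟩ := ih
      refine ⟨min δ (c M), lt_min hδ (hc M), fun n hn => ?_⟩
      rcases Nat.lt_succ_iff_lt_or_eq.1 hn with h' | rfl
      · exact (min_le_left _ _).trans (h n h')
      · exact min_le_right _ _
  obtain ⟨δ, hδ, hM⟩ := hmin N
  refine lt_of_lt_of_le (lt_min hδ (half_pos ht)) (le_ciInf fun n => ?_)
  rcases lt_or_ge n N with hn | hn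
  · have := hM n hn
    have := le_max_left 0 (t - (1 / 2) ^ n)
    have := min_le_left δ (t / 2)
    linarith
  · have h1 : ((1 : ℝ) / 2) ^ n ≤ (1 / 2) ^ N :=
      pow_le_pow_of_le_one (by norm_num) (by norm_num) hn
    have := le_max_right 0 (t - (1 / 2) ^ n)
    have := min_le_right δ (t / 2)
    have := hc n
    linarith

theorem phi_continuous {c : ℕ → ℝ} (hc : ∀ n, 0 < c n) : Continuous (phi c) := by
  have : LipschitzWith 1 (phi c) := by
    refine LipschitzWith.of_dist_le_mul fun s t => ?_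
    rw [Real.dist_eq, Real.dist_eq, NNReal.coe_one, one_mul, abs_le]
    have h1 := phi_lip hc s t
    have h2 := phi_lip hc t s
    rw [abs_sub_comm] at h2
    constructor <;> linarith
  exact this.continuous

/-- An increasing homeomorphism of `[0,2]` which is as small as we want near `0`. -/
theorem exists_psi (c : ℕ → ℝ) (hc : ∀ n, 0 < c n) :
    ∃ ψ : ℝ → ℝ, Continuous ψ ∧ StrictMonoOn ψ (Icc 0 2) ∧ ψ 0 = 0 ∧ ψ 2 = 2 ∧
      ∀ n, ψ ((1 / 2) ^ n) ≤ c n := by
  have h2 : 1 ≤ phi c 2 := by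
    refine le_ciInf fun n => ?_
    have h1 : ((1 : ℝ) / 2) ^ n ≤ 1 := pow_le_one₀ (by norm_num) (by norm_num)
    have := le_max_right 0 ((2 : ℝ) - (1 / 2) ^ n)
    have := hc n
    linarith
  have h2' : 0 < phi c 2 := by linarith
  refine ⟨fun t => t * phi c t / phi c 2, ?_, ?_, ?_, ?_, ?_⟩
  · exact (continuous_id.mul (phi_continuous hc)).div_const _
  · intro s hs t ht hst
    dsimp only
    have hs0 : 0 ≤ s := hs.1
    have ht0 : 0 < t := lt_of_le_of_lt hs0 hst
    have hp := phi_pos hc ht0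
    have hm := phi_mono hc hst.le
    refine div_lt_div_of_pos_right ?_ h2'
    calc s * phi c s ≤ s * phi c t := mul_le_mul_of_nonneg_left hm hs0
      _ < t * phi c t := mul_lt_mul_of_pos_right hst hp
  · simp
  · dsimp only
    field_simp
  · intro n
    dsimp only
    rw [div_le_iff₀ h2']
    have h1 : ((1 : ℝ) / 2) ^ n ≤ 1 := pow_le_one₀ (by norm_num) (by norm_num)
    have h0 : (0 : ℝ) ≤ (1 / 2) ^ n := by positivity
    have h3 := phi_le hc n
    have hcn := hc n
    calc ((1 : ℝ) / 2) ^ n * phi c ((1 / 2) ^ n) ≤ (1 / 2) ^ n * c n :=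
          mul_le_mul_of_nonneg_left h3 h0
      _ ≤ 1 * c n := mul_le_mul_of_nonneg_right h1 hcn.le
      _ = c n * 1 := by ring
      _ ≤ c n * phi c 2 := mul_le_mul_of_nonneg_left h2 hcn.le

/-! ### Choosing the scales -/

/-- Arcs with large height leaving from different families are far apart. -/
theorem exists_scale {h : cantorSet → ℝ} (hu : UpperSemicontinuous h) {e : ℕ → cantorSet → ℝ}
    (he : ∀ n, Continuous (e n))
    (hE : ∀ n m, n ≠ m → ∀ x x', e n x = e m x' → h x ≤ 0 ∨ h x' ≤ 0) :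
    ∃ k : ℕ → ℕ, (∀ m n, m < n → k m + 3 ≤ k n) ∧
      ∀ m n, m < n → ∀ x x', (1 / 2) ^ n ≤ h x → (1 / 2) ^ n ≤ h x' →
        9 / (8 * 3 ^ k n) < |e n x - e m x'| := by
  have hcs : CompactSpace cantorSet := isCompact_iff_compactSpace.1 isCompact_cantorSet
  have hcomp : ∀ (n : ℕ) (c : ℝ), IsCompact (e n '' {x | c ≤ h x}) := fun n c =>
    ((hu.isClosed_preimage c).isCompact).image (he n)
  have hN : ∀ n : ℕ, ∀ᶠ k : ℕ in atTop, ∀ m < n, ∀ x x', (1 / 2 : ℝ) ^ n ≤ h x →
      (1 / 2 : ℝ) ^ n ≤ h x' → 9 / (8 * 3 ^ k) < |e n x - e m x'| := by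
    intro n
    have := (Filter.eventually_all_finite (Set.finite_lt_nat n) (l := (atTop : Filter ℕ))
      (p := fun m k => ∀ x x', (1 / 2 : ℝ) ^ n ≤ h x →
      (1 / 2 : ℝ) ^ n ≤ h x' → 9 / (8 * 3 ^ k) < |e n x - e m x'|)).2 ?_
    · filter_upwards [this] with k hk m hm using hk m hm
    intro m hm
    have hm : m < n := hm
    have hpos : (0 : ℝ) < (1 / 2) ^ n := by positivity
    have hdisj : Disjoint (e n '' {x | (1 / 2 : ℝ) ^ n ≤ h x})
        (e m '' {x | (1 / 2 : ℝ) ^ n ≤ h x}) := by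
      rw [Set.disjoint_left]
      rintro _ ⟨x, hx, rfl⟩ ⟨x', hx', hxx⟩
      rcases hE n m hm.ne' x x' hxx.symm with h1 | h1
      · have : (1 / 2 : ℝ) ^ n ≤ h x := hx
        linarith
      · have : (1 / 2 : ℝ) ^ n ≤ h x' := hx'
        linarith
    obtain ⟨δ, hδ, hd⟩ := hdisj.exists_thickenings (hcomp n _) (hcomp m _).isClosed
    have hlim : Tendsto (fun k : ℕ => (9 : ℝ) / (8 * 3 ^ k)) atTop (𝓝 0) := by
      have : Tendsto (fun k : ℕ => (9 / 8 : ℝ) * (1 / 3) ^ k) atTop (𝓝 (9 / 8 * 0)) :=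
        (tendsto_pow_atTop_nhds_zero_of_lt_one (by norm_num) (by norm_num)).const_mul _
      rw [mul_zero] at this
      refine this.congr fun k => ?_
      rw [one_div, inv_pow]
      field_simp
    filter_upwards [hlim.eventually (gt_mem_nhds hδ)] with k hk x x' hx hx'
    by_contra hcon
    push Not at hcon
    refine (Set.disjoint_left.1 hd)
      (Metric.self_subset_thickening hδ _ (mem_image_of_mem (e n) (show x ∈ {x | _} from hx))) ?_
    rw [Metric.mem_thickening_iff]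
    exact ⟨e m x', mem_image_of_mem _ hx', by rw [Real.dist_eq]; linarith⟩
  have hN' : ∀ n : ℕ, ∃ N : ℕ, ∀ k ≥ N, ∀ m < n, ∀ x x', (1 / 2 : ℝ) ^ n ≤ h x →
      (1 / 2 : ℝ) ^ n ≤ h x' → 9 / (8 * 3 ^ k) < |e n x - e m x'| :=
    fun n => eventually_atTop.1 (hN n)
  choose N hN'' using hN'
  refine ⟨fun n => ∑ i ∈ Finset.range (n + 1), (N i + 3), ?_, ?_⟩
  · intro m n hmn
    have hsub : Finset.range (m + 1) ⊆ Finset.range n := Finset.range_subset_range.2 hmn
    have h1 : ∑ i ∈ Finset.range (m + 1), (N i + 3) ≤ ∑ i ∈ Finset.range n, (N i + 3) :=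
      Finset.sum_le_sum_of_subset hsub
    have h2 : ∑ i ∈ Finset.range (n + 1), (N i + 3) =
        ∑ i ∈ Finset.range n, (N i + 3) + (N n + 3) := Finset.sum_range_succ _ _
    dsimp only
    omega
  · intro m n hmn x x' hx hx'
    refine hN'' n _ ?_ m hmn x x' hx hx'
    have h2 : ∑ i ∈ Finset.range (n + 1), (N i + 3) =
        ∑ i ∈ Finset.range n, (N i + 3) + (N n + 3) := Finset.sum_range_succ _ _
    dsimp only
    omega

/-! ### The embedding -/

section embed

variable (c : Choice) (ψ : ℝ → ℝ) (k : ℕ → ℕ)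

/-- the index of the family containing a point off the plane -/
def idx (p : ℝ × ℝ × ℝ) : ℕ := ⌊(1 - p.2.1) / p.2.2⌋₊ - 1

/-- horizontal displacement -/
def ww (p : ℝ × ℝ × ℝ) : ℝ :=
  if p.2.2 = 0 then 0 else min (ψ (2 - 2 * p.2.1)) (rr (k (idx p)) p.1 - p.1)

/-- height of the image -/
def YY (p : ℝ × ℝ × ℝ) : ℝ := (2 - p.1) * (1 - (ψ (2 - 2 * p.2.1) - ww ψ k p) / 2)

/-- the embedding -/
def ff (p : ℝ × ℝ × ℝ) : ℝ × ℝ := ((p.1 + ww ψ k p) * YY ψ k p, YY ψ k p)

/-- the properties of the auxiliary data -/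
structure Good : Prop where
  cont : Continuous ψ
  mono : StrictMonoOn ψ (Icc 0 2)
  zero : ψ 0 = 0
  two : ψ 2 = 2
  small : ∀ n, ψ ((1 / 2) ^ n) ≤ 1 / (8 * 3 ^ k n)
  k1 : ∀ m n, m < n → k m + 3 ≤ k n
  k2 : ∀ m n, m < n → ∀ x x', (1 / 2) ^ n ≤ c.h x → (1 / 2) ^ n ≤ c.h x' →
        9 / (8 * 3 ^ k n) < |(c.φ n x : ℝ) - c.φ m x'|

variable {c ψ k}

theorem e_mem (c : Choice) (n : ℕ) (x : cantorSet) : (c.φ n x : ℝ) ∈ cantorSet :=
  c.Kn_sub n (c.φ n x).2

theorem ratio {n : ℕ} {y : ℝ} (hy : 0 < y) :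
    (1 - (1 - y / 2)) / (y / (2 * ((n : ℝ) + 1))) = n + 1 := by
  have : (n : ℝ) + 1 ≠ 0 := by positivity
  field_simp
  ring

theorem ww_tilted (hg : Good c ψ k) (n : ℕ) (x : cantorSet) {y : ℝ} (hy : 0 ≤ y) :
    ww ψ k ((c.φ n x : ℝ), 1 - y / 2, y / (2 * ((n : ℝ) + 1))) =
      min (ψ y) (rr (k n) (c.φ n x) - c.φ n x) := by
  have hn : (0 : ℝ) < (n : ℝ) + 1 := by positivity
  have h2 : 2 - 2 * (1 - y / 2) = y := by ring
  rcases hy.eq_or_lt with rfl | hy
  · have := lt_rr (k n) (c.φ n x)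
    simp only [ww, zero_div, if_true, hg.zero]
    rw [min_eq_left (by linarith)]
  · have hz : y / (2 * ((n : ℝ) + 1)) ≠ 0 := by positivity
    have hidx : idx ((c.φ n x : ℝ), 1 - y / 2, y / (2 * ((n : ℝ) + 1))) = n := by
      simp only [idx]
      rw [ratio hy]
      have : ((n : ℝ) + 1) = ((n + 1 : ℕ) : ℝ) := by push_cast; ring
      rw [this, Nat.floor_natCast]
      omega
    simp only [ww]
    rw [if_neg hz, hidx, h2]

theorem nocross (hg : Good c ψ k) {n m : ℕ} {x x' : cantorSet}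
    (hv : rr (k n) (c.φ n x) - c.φ n x < ψ (c.h x)) (hlt : (c.φ n x : ℝ) < c.φ m x')
    (hr : (c.φ m x' : ℝ) < rr (k n) (c.φ n x)) :
    (c.φ m x' : ℝ) + min (ψ (c.h x')) (rr (k m) (c.φ m x') - c.φ m x') <
      rr (k n) (c.φ n x) := by
  have hgap := (rr_gap (k n) (c.φ n x) (e_mem c m x') hr.le).1
  rcases lt_trichotomy m n with hmn | rfl | hmn
  · have hle := le_rr_sub (k n) (e_mem c n x)
    have hs := hg.small n
    have hI := c.mem x
    have hI' := c.mem x'
    have hp0 : (0 : ℝ) ≤ (1 / 2) ^ n := by positivity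
    have hp1 : ((1 : ℝ) / 2) ^ n ≤ 1 := pow_le_one₀ (by norm_num) (by norm_num)
    have hx : (1 / 2 : ℝ) ^ n ≤ c.h x := by
      by_contra hcon
      push Not at hcon
      have := hg.mono.monotoneOn (show c.h x ∈ Icc (0 : ℝ) 2 from ⟨hI.1, by linarith [hI.2]⟩)
        (show ((1 : ℝ) / 2) ^ n ∈ Icc (0 : ℝ) 2 from ⟨hp0, by linarith⟩) hcon.le
      linarith
    have hx' : c.h x' < (1 / 2 : ℝ) ^ n := by
      by_contra hcon
      push Not at hcon
      have h1 := hg.k2 m n hmn x x' hx hcon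
      rw [abs_sub_comm, abs_of_pos (by linarith)] at h1
      have := rr_sub_le (k n) (c.φ n x)
      linarith
    have h3 := hg.mono.monotoneOn (show c.h x' ∈ Icc (0 : ℝ) 2 from ⟨hI'.1, by linarith [hI'.2]⟩)
        (show ((1 : ℝ) / 2) ^ n ∈ Icc (0 : ℝ) 2 from ⟨hp0, by linarith⟩) hx'.le
    have h4 := min_le_left (ψ (c.h x')) (rr (k m) (c.φ m x') - c.φ m x')
    linarith
  · have h1 := rr_laminar (k m) (e_mem c m x') hlt hr.le
    have h4 := min_le_right (ψ (c.h x')) (rr (k m) (c.φ m x') - c.φ m x')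
    linarith
  · have h1 := hg.k1 n m hmn
    have h2 := rr_sub_le (k m) (c.φ m x')
    have h4 := min_le_right (ψ (c.h x')) (rr (k m) (c.φ m x') - c.φ m x')
    have h5 : (9 : ℝ) / (8 * 3 ^ k m) ≤ 1 / (8 * 3 ^ k n) := by
      have h6 : (3 : ℝ) ^ (k n + 3) ≤ 3 ^ k m := pow_le_pow_right₀ (by norm_num) h1
      rw [pow_add] at h6
      have h7 : (0 : ℝ) < 3 ^ k n := by positivity
      rw [div_le_div_iff₀ (by positivity) (by positivity)]
      nlinarith
    linarith

theorem psi_mem (hg : Good c ψ k) {t : ℝ} (ht : t ∈ Icc (0 : ℝ) 2) : 0 ≤ ψ t ∧ ψ t ≤ 2 := by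
  have h1 := hg.mono.monotoneOn (show (0 : ℝ) ∈ Icc (0 : ℝ) 2 from ⟨le_rfl, by norm_num⟩) ht ht.1
  have h2 := hg.mono.monotoneOn ht (show (2 : ℝ) ∈ Icc (0 : ℝ) 2 from ⟨by norm_num, le_rfl⟩) ht.2
  rw [hg.zero] at h1
  rw [hg.two] at h2
  exact ⟨h1, h2⟩

theorem psi_pos (hg : Good c ψ k) {t : ℝ} (ht : 0 < t) (ht2 : t ≤ 2) : 0 < ψ t := by
  have h1 := hg.mono (show (0 : ℝ) ∈ Icc (0 : ℝ) 2 from ⟨le_rfl, by norm_num⟩)
    (show t ∈ Icc (0 : ℝ) 2 from ⟨ht.le, ht2⟩) ht
  rwa [hg.zero] at h1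

theorem psi_lt_two (hg : Good c ψ k) {t : ℝ} (ht : 0 ≤ t) (ht2 : t < 2) : ψ t < 2 := by
  have h1 := hg.mono (show t ∈ Icc (0 : ℝ) 2 from ⟨ht, ht2.le⟩)
    (show (2 : ℝ) ∈ Icc (0 : ℝ) 2 from ⟨by norm_num, le_rfl⟩) ht2
  rwa [hg.two] at h1

/-- Two folded blades leaving at different points have disjoint images. -/
theorem tilted_disjoint (hg : Good c ψ k) {n m : ℕ} {x x' : cantorSet} {y y' : ℝ}
    (hy : 0 < y) (hyh : y ≤ c.h x) (hy' : 0 < y') (hyh' : y' ≤ c.h x')
    (hlt : (c.φ n x : ℝ) < c.φ m x')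
    (hX : (c.φ n x : ℝ) + min (ψ y) (rr (k n) (c.φ n x) - c.φ n x) =
      (c.φ m x' : ℝ) + min (ψ y') (rr (k m) (c.φ m x') - c.φ m x'))
    (hY : (2 - (c.φ n x : ℝ)) *
        (1 - (ψ y - min (ψ y) (rr (k n) (c.φ n x) - c.φ n x)) / 2) =
      (2 - (c.φ m x' : ℝ)) *
        (1 - (ψ y' - min (ψ y') (rr (k m) (c.φ m x') - c.φ m x')) / 2)) : False := by
  have hI := c.mem x
  have hI' := c.mem x'
  have hd' := cantorSet_subset_unitInterval (e_mem c m x')
  have hpos' : 0 < ψ y' := psi_pos hg hy' (by linarith [hI'.2])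
  have hl' := lt_rr (k m) (c.φ m x')
  have hw' : 0 < min (ψ y') (rr (k m) (c.φ m x') - c.φ m x') := lt_min hpos' (by linarith)
  have hY' : (2 - (c.φ m x' : ℝ)) *
        (1 - (ψ y' - min (ψ y') (rr (k m) (c.φ m x') - c.φ m x')) / 2) ≤ 2 - (c.φ m x' : ℝ) := by
    have h1 := min_le_left (ψ y') (rr (k m) (c.φ m x') - c.φ m x')
    have h2 : 0 ≤ 2 - (c.φ m x' : ℝ) := by linarith [hd'.2]
    nlinarith
  rcases le_or_gt (ψ y) (rr (k n) (c.φ n x) - c.φ n x) with hcase | hcase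
  · rw [min_eq_left hcase] at hY
    have : (2 - (c.φ n x : ℝ)) * (1 - (ψ y - ψ y) / 2) = 2 - (c.φ n x : ℝ) := by ring
    rw [this] at hY
    linarith
  · rw [min_eq_right hcase.le] at hX
    have hr : (c.φ m x' : ℝ) < rr (k n) (c.φ n x) := by linarith
    have hmono : ψ y ≤ ψ (c.h x) := hg.mono.monotoneOn ⟨hy.le, by linarith [hI.2]⟩
      ⟨hI.1, by linarith [hI.2]⟩ hyh
    have hmono' : ψ y' ≤ ψ (c.h x') := hg.mono.monotoneOn ⟨hy'.le, by linarith [hI'.2]⟩
      ⟨hI'.1, by linarith [hI'.2]⟩ hyh'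
    have h1 := nocross hg (n := n) (m := m) (x := x) (x' := x') (by linarith) hlt hr
    have h2 : min (ψ y') (rr (k m) (c.φ m x') - c.φ m x') ≤
        min (ψ (c.h x')) (rr (k m) (c.φ m x') - c.φ m x') := min_le_min hmono' le_rfl
    linarith

/-- Points of `C` are in the plane `z = 0` or in the open part of a folded blade. -/
theorem mem_cases {c : Choice} {p : ℝ × ℝ × ℝ} (hp : p ∈ c.C) :
    (p.2.2 = 0 ∧ (p ∈ base ∨ p.1 ∈ cantorSet) ∧ p.1 ∈ Icc (0 : ℝ) 1 ∧ p.2.1 ∈ Icc (0 : ℝ) 1) ∨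
      ∃ (n : ℕ) (x : cantorSet) (y : ℝ), 0 < y ∧ y ≤ c.h x ∧
        p = ((c.φ n x : ℝ), 1 - y / 2, y / (2 * ((n : ℝ) + 1))) := by
  rcases hp with (⟨h1, h2, h3⟩ | ⟨h1, h2, h3⟩) | hp
  · exact Or.inl ⟨h3, Or.inr h1, cantorSet_subset_unitInterval h1, h2⟩
  · refine Or.inl ⟨h3, Or.inl ⟨h1, h2, h3⟩, h1, ?_⟩
    rw [h2]
    exact ⟨le_rfl, zero_le_one⟩
  · obtain ⟨n, hn⟩ := mem_iUnion.1 hp
    obtain ⟨x, y, ⟨hy0, hy⟩, rfl⟩ := Choice.mem_tilted.1 hn
    rcases hy0.eq_or_lt with rfl | hy0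
    · left
      refine ⟨by simp, Or.inr (e_mem c n x), cantorSet_subset_unitInterval (e_mem c n x), ?_⟩
      norm_num
    · exact Or.inr ⟨n, x, y, hy0, hy, rfl⟩

theorem ww_zero {p : ℝ × ℝ × ℝ} (hp : p.2.2 = 0) : ww ψ k p = 0 := by
  simp [ww, hp]

theorem YY_zero {p : ℝ × ℝ × ℝ} (hp : p.2.2 = 0) :
    YY ψ k p = (2 - p.1) * (1 - ψ (2 - 2 * p.2.1) / 2) := by
  simp [YY, ww_zero hp]

/-- the image of a point of the plane is on the base line iff the point is in `base` -/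
theorem YY_eq_zero_of_base (hg : Good c ψ k) {p : ℝ × ℝ × ℝ} (hp : p ∈ base) :
    YY ψ k p = 0 := by
  rw [YY_zero hp.2.2, hp.2.1]
  norm_num [hg.two]

theorem base_of_YY (hg : Good c ψ k) {p : ℝ × ℝ × ℝ} (hp : p.2.2 = 0)
    (h1 : p.1 ∈ Icc (0 : ℝ) 1) (h2 : p.2.1 ∈ Icc (0 : ℝ) 1) (hY : YY ψ k p = 0) : p ∈ base := by
  refine ⟨h1, ?_, hp⟩
  by_contra hne
  have h3 : 0 < p.2.1 := lt_of_le_of_ne h2.1 (Ne.symm hne)
  have h4 := psi_lt_two hg (t := 2 - 2 * p.2.1) (by linarith [h2.2]) (by linarith)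
  rw [YY_zero hp] at hY
  have h5 : 0 < 2 - p.1 := by linarith [h1.2]
  have h6 : 0 < 1 - ψ (2 - 2 * p.2.1) / 2 := by linarith
  have := mul_pos h5 h6
  linarith

theorem YY_tilted_pos (hg : Good c ψ k) {n : ℕ} {x : cantorSet} {y : ℝ}
    (hy : 0 < y) (hyh : y ≤ c.h x) :
    0 < YY ψ k ((c.φ n x : ℝ), 1 - y / 2, y / (2 * ((n : ℝ) + 1))) := by
  have hI := c.mem x
  have hd := cantorSet_subset_unitInterval (e_mem c n x)
  have hl := lt_rr (k n) (c.φ n x)
  have h2 : 2 - 2 * (1 - y / 2) = y := by ring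
  have h4 := psi_lt_two hg (t := y) hy.le (by linarith [hI.2])
  have h5 : 0 < min (ψ y) (rr (k n) (c.φ n x) - c.φ n x) :=
    lt_min (psi_pos hg hy (by linarith [hI.2])) (by linarith)
  simp only [YY]
  rw [ww_tilted hg n x hy.le, h2]
  apply mul_pos
  · linarith [hd.2]
  · linarith

theorem ff_inj_mixed (hg : Good c ψ k) {p : ℝ × ℝ × ℝ} (hp : p.2.2 = 0)
    (hK : p.1 ∈ cantorSet) (h2 : p.2.1 ∈ Icc (0 : ℝ) 1) {n : ℕ} {x : cantorSet} {y : ℝ}
    (hy : 0 < y) (hyh : y ≤ c.h x)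
    (hX : p.1 = (c.φ n x : ℝ) + min (ψ y) (rr (k n) (c.φ n x) - c.φ n x))
    (hY : YY ψ k p = YY ψ k ((c.φ n x : ℝ), 1 - y / 2, y / (2 * ((n : ℝ) + 1)))) : False := by
  have hI := c.mem x
  have hd := cantorSet_subset_unitInterval (e_mem c n x)
  have hp1 := cantorSet_subset_unitInterval hK
  have hl := lt_rr (k n) (c.φ n x)
  have h2' : 2 - 2 * (1 - y / 2) = y := by ring
  have hpos := psi_pos hg hy (by linarith [hI.2])
  rcases le_or_gt (rr (k n) (c.φ n x) - c.φ n x) (ψ y) with hcase | hcase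
  · rw [min_eq_right hcase] at hX
    have : p.1 = rr (k n) (c.φ n x) := by linarith
    exact rr_notMem (k n) (c.φ n x) (this ▸ hK)
  · rw [min_eq_left hcase.le] at hX
    rw [YY_zero hp] at hY
    simp only [YY] at hY
    rw [ww_tilted hg n x hy.le, h2', min_eq_left hcase.le] at hY
    have h3 := (psi_mem hg (t := 2 - 2 * p.2.1) ⟨by linarith [h2.2], by linarith [h2.1]⟩).1
    have h4 : (2 - p.1) * (1 - ψ (2 - 2 * p.2.1) / 2) ≤ 2 - p.1 := by
      have : 0 ≤ 2 - p.1 := by linarith [hp1.2]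
      nlinarith
    have h5 : (2 - (c.φ n x : ℝ)) * (1 - (ψ y - ψ y) / 2) = 2 - (c.φ n x : ℝ) := by ring
    rw [h5] at hY
    linarith

theorem ff_inj (hg : Good c ψ k) (hE : c.Separated) {p q : ℝ × ℝ × ℝ} (hp : p ∈ c.C)
    (hq : q ∈ c.C) (hpq : ff ψ k p = ff ψ k q) : p = q ∨ (p ∈ base ∧ q ∈ base) := by
  have hY : YY ψ k p = YY ψ k q := congrArg Prod.snd hpq
  have hX' : (p.1 + ww ψ k p) * YY ψ k p = (q.1 + ww ψ k q) * YY ψ k q := congrArg Prod.fst hpq
  rcases mem_cases hp with ⟨hp0, hpb, hp1, hp2⟩ | ⟨n, x, y, hy, hyh, rfl⟩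
  · rcases mem_cases hq with ⟨hq0, hqb, hq1, hq2⟩ | ⟨m, x', y', hy', hyh', rfl⟩
    · by_cases h0 : YY ψ k p = 0
      · exact Or.inr ⟨base_of_YY hg hp0 hp1 hp2 h0, base_of_YY hg hq0 hq1 hq2 (hY ▸ h0)⟩
      · left
        rw [← hY] at hX'
        have hX := mul_right_cancel₀ h0 hX'
        rw [ww_zero hp0, ww_zero hq0, add_zero, add_zero] at hX
        rw [YY_zero hp0, YY_zero hq0, hX] at hY
        have h5 : 2 - q.1 ≠ 0 := by linarith [hq1.2]
        have h6 := mul_left_cancel₀ h5 hY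
        have h7 : ψ (2 - 2 * p.2.1) = ψ (2 - 2 * q.2.1) := by linarith
        have h8 := hg.mono.injOn (show 2 - 2 * p.2.1 ∈ Icc (0 : ℝ) 2 from
          ⟨by linarith [hp2.2], by linarith [hp2.1]⟩) (show 2 - 2 * q.2.1 ∈ Icc (0 : ℝ) 2 from
          ⟨by linarith [hq2.2], by linarith [hq2.1]⟩) h7
        exact Prod.ext hX (Prod.ext (by linarith) (hp0.trans hq0.symm))
    · exfalso
      have hpos := YY_tilted_pos hg (n := m) hy' hyh'
      have hK : p.1 ∈ cantorSet := by
        rcases hpb with hb | hK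
        · rw [← hY, YY_eq_zero_of_base hg hb] at hpos
          exact absurd hpos (lt_irrefl _)
        · exact hK
      rw [← hY] at hX' hpos
      have hX := mul_right_cancel₀ hpos.ne' hX'
      rw [ww_zero hp0, add_zero, ww_tilted hg m x' hy'.le] at hX
      exact ff_inj_mixed hg hp0 hK hp2 hy' hyh' hX hY
  · have hposp := YY_tilted_pos hg (n := n) hy hyh
    rcases mem_cases hq with ⟨hq0, hqb, hq1, hq2⟩ | ⟨m, x', y', hy', hyh', rfl⟩
    · exfalso
      have hK : q.1 ∈ cantorSet := by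
        rcases hqb with hb | hK
        · rw [hY, YY_eq_zero_of_base hg hb] at hposp
          exact absurd hposp (lt_irrefl _)
        · exact hK
      rw [hY] at hX' hposp
      have hX := mul_right_cancel₀ hposp.ne' hX'
      rw [ww_zero hq0, add_zero, ww_tilted hg n x hy.le] at hX
      exact ff_inj_mixed hg hq0 hK hq2 hy hyh hX.symm hY.symm
    · left
      rw [← hY] at hX'
      have hX := mul_right_cancel₀ hposp.ne' hX'
      rw [ww_tilted hg m x' hy'.le, ww_tilted hg n x hy.le] at hX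
      dsimp only at hX
      simp only [YY] at hY
      rw [ww_tilted hg m x' hy'.le, ww_tilted hg n x hy.le] at hY
      have e1 : 2 - 2 * (1 - y / 2) = y := by ring
      have e2 : 2 - 2 * (1 - y' / 2) = y' := by ring
      rw [e1, e2] at hY
      rcases lt_trichotomy (c.φ n x : ℝ) (c.φ m x') with hlt | heq | hlt
      · exact (tilted_disjoint hg hy hyh hy' hyh' hlt hX hY).elim
      · have hnm : n = m := by
          by_contra hne
          rcases hE n m hne x x' heq with h1 | h1 <;> linarith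
        subst hnm
        rw [heq] at hX hY ⊢
        have hX2 := add_left_cancel hX
        rw [hX2] at hY
        have hd := cantorSet_subset_unitInterval (e_mem c n x')
        have h5 : 2 - (c.φ n x' : ℝ) ≠ 0 := by linarith [hd.2]
        have h6 := mul_left_cancel₀ h5 hY
        have h7 : ψ y = ψ y' := by linarith
        have h8 := hg.mono.injOn (show y ∈ Icc (0 : ℝ) 2 from
          ⟨hy.le, by linarith [(c.mem x).2]⟩) (show y' ∈ Icc (0 : ℝ) 2 from
          ⟨hy'.le, by linarith [(c.mem x').2]⟩) h7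
        rw [h8]
      · exact (tilted_disjoint hg hy' hyh' hy hyh hlt hX.symm hY.symm).elim

/-! ### Continuity -/

theorem ww_continuousWithinAt (hg : Good c ψ k) {p : ℝ × ℝ × ℝ} (hp : p ∈ c.C) :
    ContinuousWithinAt (ww ψ k) c.C p := by
  by_cases hz : p.2.2 = 0
  · -- points of the plane
    have hw := ww_zero (ψ := ψ) (k := k) hz
    rw [Metric.continuousWithinAt_iff]
    intro ε hε
    -- large indices
    have hlim : Tendsto (fun n : ℕ => (9 : ℝ) / (8 * 3 ^ n)) atTop (𝓝 0) := by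
      have : Tendsto (fun n : ℕ => (9 / 8 : ℝ) * (1 / 3) ^ n) atTop (𝓝 (9 / 8 * 0)) :=
        (tendsto_pow_atTop_nhds_zero_of_lt_one (by norm_num) (by norm_num)).const_mul _
      rw [mul_zero] at this
      refine this.congr fun n => ?_
      rw [one_div, inv_pow]
      field_simp
    obtain ⟨M, hM⟩ := eventually_atTop.1 (hlim.eventually (gt_mem_nhds hε))
    have hkn : ∀ n, n ≤ k n := by
      intro n
      induction n with
      | zero => exact Nat.zero_le _
      | succ n ih =>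
        have := hg.k1 n (n + 1) (Nat.lt_succ_self n)
        omega
    obtain ⟨δ, hδ, hδψ⟩ := Metric.continuousAt_iff.1
      (hg.cont.continuousAt (x := (0 : ℝ))) ε hε
    refine ⟨δ / (2 * (M + 1)), by positivity, fun q hq hqp => ?_⟩
    rw [hw]
    rcases mem_cases hq with ⟨hq0, -⟩ | ⟨n, x, y, hy, hyh, rfl⟩
    · rw [ww_zero hq0, dist_self]; exact hε
    · rw [ww_tilted hg n x hy.le]
      have hl := lt_rr (k n) (c.φ n x)
      have hpos := psi_pos hg hy (by linarith [(c.mem x).2])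
      have h0 : 0 ≤ min (ψ y) (rr (k n) (c.φ n x) - c.φ n x) := le_min hpos.le (by linarith)
      rw [Real.dist_eq, sub_zero, abs_of_nonneg h0]
      rcases le_or_gt M n with hMn | hMn
      · have h1 := hM (k n) (hMn.trans (hkn n))
        have h2 := rr_sub_le (k n) (c.φ n x)
        have h3 := min_le_right (ψ y) (rr (k n) (c.φ n x) - c.φ n x)
        linarith
      · have hdz : dist (y / (2 * ((n : ℝ) + 1))) 0 < δ / (2 * (M + 1)) := by
          refine lt_of_le_of_lt ?_ hqp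
          have h1 : dist (y / (2 * ((n : ℝ) + 1))) p.2.2 ≤
              dist ((1 - y / 2, y / (2 * ((n : ℝ) + 1))) : ℝ × ℝ) p.2 := by
            rw [Prod.dist_eq]; exact le_max_right _ _
          have h2 : dist ((1 - y / 2, y / (2 * ((n : ℝ) + 1))) : ℝ × ℝ) p.2 ≤
              dist (((c.φ n x : ℝ), 1 - y / 2, y / (2 * ((n : ℝ) + 1))) : ℝ × ℝ × ℝ) p := by
            rw [Prod.dist_eq (x := (((c.φ n x : ℝ), 1 - y / 2, y / (2 * ((n : ℝ) + 1))) :
              ℝ × ℝ × ℝ))]; exact le_max_right _ _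
          rw [hz] at h1
          exact h1.trans h2
        have hn : (0 : ℝ) < 2 * ((n : ℝ) + 1) := by positivity
        rw [Real.dist_eq, sub_zero, abs_of_pos (by positivity)] at hdz
        have hMn' : (n : ℝ) + 1 ≤ M := by exact_mod_cast hMn
        have hyδ : y < δ := by
          have hM0 : (0 : ℝ) < 2 * ((M : ℝ) + 1) := by positivity
          have h5 : y / (2 * ((M : ℝ) + 1)) ≤ y / (2 * ((n : ℝ) + 1)) :=
            div_le_div_of_nonneg_left hy.le hn (by linarith)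
          have h6 : y / (2 * ((M : ℝ) + 1)) < δ / (2 * (M + 1)) := lt_of_le_of_lt h5 hdz
          exact (div_lt_div_iff_of_pos_right hM0).1 h6
        have h7 := hδψ (x := y) (by rw [Real.dist_eq, sub_zero, abs_of_pos hy]; exact hyδ)
        rw [hg.zero, Real.dist_eq, sub_zero, abs_of_pos hpos] at h7
        exact lt_of_le_of_lt (min_le_left _ _) h7
  · -- points off the plane
    rcases mem_cases hp with ⟨hp0, -⟩ | ⟨n, x, y, hy, hyh, hpe⟩
    · exact absurd hp0 hz
    have hg' : ContinuousAt (fun q : ℝ × ℝ × ℝ =>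
        min (ψ (2 - 2 * q.2.1)) (rr (k n) q.1 - q.1)) p := by
      have h1 : ContinuousAt (fun q : ℝ × ℝ × ℝ => ψ (2 - 2 * q.2.1)) p := by
        have := hg.cont
        fun_prop
      have h2 : ContinuousAt (rr (k n)) p.1 := by
        apply continuousAt_rr
        rw [hpe]
        exact e_mem c n x
      have h3 : ContinuousAt (fun q : ℝ × ℝ × ℝ => rr (k n) q.1) p :=
        ContinuousAt.comp (f := fun q : ℝ × ℝ × ℝ => q.1) h2 continuous_fst.continuousAt
      exact h1.min (h3.sub continuous_fst.continuousAt)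
    have hratio : (1 - p.2.1) / p.2.2 = n + 1 := by
      rw [hpe]; exact ratio hy
    have hcr : ContinuousAt (fun q : ℝ × ℝ × ℝ => (1 - q.2.1) / q.2.2) p := by
      refine ContinuousAt.div (by fun_prop) (by fun_prop) hz
    have hev1 := hcr.eventually (Ioo_mem_nhds (a := (n : ℝ) + 1 / 2) (b := (n : ℝ) + 3 / 2)
      (by dsimp only; rw [hratio]; linarith) (by dsimp only; rw [hratio]; linarith))
    have hev2 : ∀ᶠ q : ℝ × ℝ × ℝ in 𝓝 p, q.2.2 ≠ 0 := by
      have : ContinuousAt (fun q : ℝ × ℝ × ℝ => q.2.2) p := by fun_prop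
      exact this.eventually_ne hz
    have heq : ∀ q ∈ c.C, (1 - q.2.1) / q.2.2 ∈ Ioo ((n : ℝ) + 1 / 2) ((n : ℝ) + 3 / 2) →
        q.2.2 ≠ 0 → ww ψ k q = min (ψ (2 - 2 * q.2.1)) (rr (k n) q.1 - q.1) := by
      intro q hq h1 h2
      rcases mem_cases hq with ⟨hq0, -⟩ | ⟨m, x', y', hy', hyh', hqe⟩
      · exact absurd hq0 h2
      · rw [hqe] at h1
        dsimp only at h1
        rw [ratio hy'] at h1
        have hmn : m = n := by
          have a1 : (m : ℝ) < n + 1 := by linarith [h1.2]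
          have a2 : (n : ℝ) < m + 1 := by linarith [h1.1]
          have a1' : m < n + 1 := by exact_mod_cast a1
          have a2' : n < m + 1 := by exact_mod_cast a2
          omega
        subst hmn
        rw [hqe, ww_tilted hg m x' hy'.le]
        dsimp only
        have e2 : 2 - 2 * (1 - y' / 2) = y' := by ring
        rw [e2]
    have hpe' := heq p hp (by rw [hratio]; constructor <;> linarith) hz
    refine (hg'.continuousWithinAt (s := c.C)).congr_of_eventuallyEq ?_ hpe'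
    have hev3 := (hev1.and hev2).filter_mono (nhdsWithin_le_nhds (s := c.C))
    filter_upwards [hev3, self_mem_nhdsWithin] with q hq hqC
    exact heq q hqC hq.1 hq.2

theorem ff_continuousOn (hg : Good c ψ k) : ContinuousOn (ff ψ k) c.C := by
  have hw : ContinuousOn (ww ψ k) c.C := fun p hp => ww_continuousWithinAt hg hp
  have hY : ContinuousOn (YY ψ k) c.C := by
    unfold YY
    have := hg.cont
    have h1 : ContinuousOn (fun p : ℝ × ℝ × ℝ => ψ (2 - 2 * p.2.1)) c.C := by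
      fun_prop
    exact (by fun_prop : ContinuousOn (fun p : ℝ × ℝ × ℝ => (2 - p.1)) c.C).mul
      (continuousOn_const.sub ((h1.sub hw).div_const _))
  unfold ff
  exact ((continuous_fst.continuousOn.add hw).mul hY).prodMk hY

end embed

/-! ### Compactness -/

theorem tilted_compact (c : Choice) (n : ℕ) : IsCompact (c.tilted n) := by
  have hcs : CompactSpace cantorSet := isCompact_iff_compactSpace.1 isCompact_cantorSet
  have h1 : IsClosed {q : cantorSet × ℝ | q.2 ≤ c.h q.1} := c.usc.IsClosed_hypograph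
  have h2 : IsClosed {q : cantorSet × ℝ | 0 ≤ q.2} := isClosed_le continuous_const continuous_snd
  have h3 : IsCompact ({q : cantorSet × ℝ | 0 ≤ q.2} ∩ {q : cantorSet × ℝ | q.2 ≤ c.h q.1}) := by
    refine (isCompact_univ.prod (isCompact_Icc (a := (0 : ℝ)) (b := 1))).of_isClosed_subset
      (h2.inter h1) ?_
    rintro q ⟨hq1, hq2⟩
    exact ⟨mem_univ _, hq1, le_trans hq2 (c.mem q.1).2⟩
  have h4 : Continuous (fun q : cantorSet × ℝ =>
      (((c.φ n q.1 : ℝ), 1 - q.2 / 2, q.2 / (2 * ((n : ℝ) + 1))) : ℝ × ℝ × ℝ)) := by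
    have hφ : Continuous (fun q : cantorSet × ℝ => (c.φ n q.1 : ℝ)) :=
      continuous_subtype_val.comp ((c.φ n).continuous.comp continuous_fst)
    exact hφ.prodMk (by fun_prop)
  exact h3.image h4

theorem C_subset_box (c : Choice) : c.C ⊆ Icc (0 : ℝ) 1 ×ˢ (Icc (0 : ℝ) 1 ×ˢ Icc (0 : ℝ) 1) := by
  intro p hp
  rcases mem_cases hp with ⟨h0, -, h1, h2⟩ | ⟨n, x, y, hy, hyh, rfl⟩
  · exact ⟨h1, h2, by rw [h0]; exact ⟨le_rfl, zero_le_one⟩⟩
  · have hI := (c.mem x).2
    have hd := cantorSet_subset_unitInterval (e_mem c n x)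
    refine ⟨hd, ⟨by dsimp only; linarith, by dsimp only; linarith⟩, ?_, ?_⟩
    · dsimp only; positivity
    · dsimp only
      rw [div_le_one (by positivity)]
      have : (0 : ℝ) ≤ n := Nat.cast_nonneg n
      linarith

theorem CK_closed : IsClosed CK := by
  have h1 : IsClosed {p : ℝ × ℝ × ℝ | p.1 ∈ cantorSet ∧ p.2.1 ∈ Icc (0 : ℝ) 1 ∧ p.2.2 = 0} := by
    refine (isClosed_cantorSet.preimage continuous_fst).inter
      ((isClosed_Icc.preimage (continuous_fst.comp continuous_snd)).inter ?_)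
    exact isClosed_eq (continuous_snd.comp continuous_snd) continuous_const
  have h2 : IsClosed base := by
    refine (isClosed_Icc.preimage continuous_fst).inter (IsClosed.inter ?_ ?_)
    · exact isClosed_eq (continuous_fst.comp continuous_snd) continuous_const
    · exact isClosed_eq (continuous_snd.comp continuous_snd) continuous_const
  exact h1.union h2

theorem C_closed (c : Choice) : IsClosed c.C := by
  refine isClosed_of_closure_subset fun p hp => ?_
  by_cases hz : p.2.2 = 0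
  · -- the limit lies in the plane
    left
    have hM : IsClosed {p : ℝ × ℝ × ℝ | (p.1 ∈ cantorSet ∧ p.2.1 ∈ Icc (0 : ℝ) 1) ∨
        (p.1 ∈ Icc (0 : ℝ) 1 ∧ p.2.1 = 0)} := by
      refine IsClosed.union ?_ ?_
      · exact (isClosed_cantorSet.preimage continuous_fst).inter
          (isClosed_Icc.preimage (continuous_fst.comp continuous_snd))
      · exact (isClosed_Icc.preimage continuous_fst).inter
          (isClosed_eq (continuous_fst.comp continuous_snd) continuous_const)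
    have hsub : c.C ⊆ {p : ℝ × ℝ × ℝ | (p.1 ∈ cantorSet ∧ p.2.1 ∈ Icc (0 : ℝ) 1) ∨
        (p.1 ∈ Icc (0 : ℝ) 1 ∧ p.2.1 = 0)} := by
      rintro q ((⟨h1, h2, -⟩ | ⟨h1, h2, -⟩) | hq)
      · exact Or.inl ⟨h1, h2⟩
      · exact Or.inr ⟨h1, h2⟩
      · have hb := C_subset_box c (Or.inr hq)
        obtain ⟨n, hn⟩ := mem_iUnion.1 hq
        obtain ⟨x, y, -, rfl⟩ := Choice.mem_tilted.1 hn
        exact Or.inl ⟨e_mem c n x, hb.2.1⟩
    rcases (closure_minimal hsub hM) hp with ⟨h1, h2⟩ | ⟨h1, h2⟩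
    · exact Or.inl ⟨h1, h2, hz⟩
    · exact Or.inr ⟨h1, h2, hz⟩
  · have hbox : IsClosed (Icc (0 : ℝ) 1 ×ˢ (Icc (0 : ℝ) 1 ×ˢ Icc (0 : ℝ) 1)) :=
      isClosed_Icc.prod (isClosed_Icc.prod isClosed_Icc)
    have hz0 : 0 ≤ p.2.2 := (closure_minimal (C_subset_box c) hbox hp).2.2.1
    have hzp : 0 < p.2.2 := lt_of_le_of_ne hz0 (Ne.symm hz)
    obtain ⟨N, hN⟩ := exists_nat_gt (1 / p.2.2)
    have hU : IsOpen {q : ℝ × ℝ × ℝ | p.2.2 / 2 < q.2.2} :=
      isOpen_lt continuous_const (continuous_snd.comp continuous_snd)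
    have hsub : {q : ℝ × ℝ × ℝ | p.2.2 / 2 < q.2.2} ∩ c.C ⊆ ⋃ n ∈ Set.Iio N, c.tilted n := by
      rintro q ⟨hq1, hq2⟩
      have hq1 : p.2.2 / 2 < q.2.2 := hq1
      rcases mem_cases hq2 with ⟨h0, -⟩ | ⟨n, x, y, hy, hyh, hqe⟩
      · rw [h0] at hq1
        linarith
      · refine mem_iUnion₂.2 ⟨n, ?_, Choice.mem_tilted.2 ⟨x, y, ⟨hy.le, hyh⟩, hqe⟩⟩
        rw [hqe] at hq1
        dsimp only at hq1
        have hn : (0 : ℝ) < 2 * ((n : ℝ) + 1) := by positivity
        rw [lt_div_iff₀ hn] at hq1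
        have hI := (c.mem x).2
        have h5 : p.2.2 * ((n : ℝ) + 1) < 1 := by linarith
        have h6 : (n : ℝ) + 1 < 1 / p.2.2 := by
          rw [lt_div_iff₀ hzp]
          linarith
        have h7 : (n : ℝ) < N := by linarith
        exact_mod_cast h7
    have hcl : IsClosed (⋃ n ∈ Set.Iio N, c.tilted n) :=
      (Set.finite_Iio N).isClosed_biUnion fun n _ => (tilted_compact c n).isClosed
    have hmem : p ∈ closure ({q : ℝ × ℝ × ℝ | p.2.2 / 2 < q.2.2} ∩ c.C) :=
      hU.inter_closure ⟨by show p.2.2 / 2 < p.2.2; linarith, hp⟩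
    obtain ⟨n, -, hn⟩ := mem_iUnion₂.1 (closure_minimal hsub hcl hmem)
    exact Or.inr (mem_iUnion.2 ⟨n, hn⟩)

theorem C_compact (c : Choice) : IsCompact c.C :=
  (isCompact_Icc.prod (isCompact_Icc.prod isCompact_Icc)).of_isClosed_subset (C_closed c)
    (C_subset_box c)

instance (c : Choice) : CompactSpace c.F := by
  have : CompactSpace c.C := isCompact_iff_compactSpace.1 (C_compact c)
  exact inferInstanceAs (CompactSpace (Quotient c.collapse))

/-! ### Planarity -/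

theorem exists_good (c : Choice) (hE : c.Separated) : ∃ ψ k, Good c ψ k := by
  obtain ⟨k, hk1, hk2⟩ := exists_scale c.usc (e := fun n x => (c.φ n x : ℝ))
    (fun n => continuous_subtype_val.comp (c.φ n).continuous) hE
  obtain ⟨ψ, h1, h2, h3, h4, h5⟩ := exists_psi (fun n => 1 / (8 * 3 ^ k n))
    (fun n => by positivity)
  exact ⟨ψ, k, ⟨h1, h2, h3, h4, h5, hk1, hk2⟩⟩

/-- If no two folded blades start at the same point, `F` is planar. -/
theorem planar_of_separated (c : Choice) (hE : c.Separated) : Planar c.F := by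
  obtain ⟨ψ, k, hg⟩ := exists_good c hE
  let g : ℝ × ℝ ≃ₜ EuclideanSpace ℝ (Fin 2) :=
    (Homeomorph.finTwoArrow (X := ℝ)).symm.trans
      (EuclideanSpace.equiv (Fin 2) ℝ).symm.toHomeomorph
  have hbase : ∀ p q : c.C, c.collapse p q → ff ψ k p = ff ψ k q := by
    rintro p q (rfl | ⟨h1, h2⟩)
    · rfl
    · simp only [ff, YY_eq_zero_of_base hg h1, YY_eq_zero_of_base hg h2, mul_zero]
  let f : c.F → ℝ × ℝ := Quotient.lift (fun p : c.C => ff ψ k p) hbase
  have hcont : Continuous f :=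
    Continuous.quotient_lift (continuousOn_iff_continuous_domRestrict.1 (ff_continuousOn hg)) hbase
  have hinj : Function.Injective f := by
    intro a b hab
    induction a using Quotient.inductionOn with | _ p => ?_
    induction b using Quotient.inductionOn with | _ q => ?_
    refine Quotient.sound ?_
    rcases ff_inj hg hE p.2 q.2 hab with h | h
    · exact Or.inl (Subtype.ext h)
    · exact Or.inr h
  refine ⟨g ∘ f, g.isEmbedding.comp ?_⟩
  exact (Topology.IsClosedEmbedding.of_continuous_injective_isClosedMap hcont hinj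
    hcont.isClosedMap).isEmbedding

/-! ### Ramification points -/

/-- the quotient map -/
def Choice.proj (c : Choice) (p : ℝ × ℝ × ℝ) (hp : p ∈ c.C) : c.F :=
  Quotient.mk c.collapse ⟨p, hp⟩

theorem proj_eq {c : Choice} {p q : ℝ × ℝ × ℝ} {hp : p ∈ c.C} {hq : q ∈ c.C}
    (h : c.proj p hp = c.proj q hq) : p = q ∨ (p ∈ base ∧ q ∈ base) := by
  rcases (Quotient.exact h : c.collapse ⟨p, hp⟩ ⟨q, hq⟩) with h | h
  · exact Or.inl (congrArg Subtype.val h)
  · exact Or.inr h

theorem proj_base {c : Choice} {p q : ℝ × ℝ × ℝ} {hp : p ∈ c.C} {hq : q ∈ c.C}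
    (h1 : p ∈ base) (h2 : q ∈ base) : c.proj p hp = c.proj q hq :=
  Quotient.sound (Or.inr ⟨h1, h2⟩)

theorem proj_continuous {c : Choice} {f : unitInterval → ℝ × ℝ × ℝ} (hf : Continuous f)
    (hm : ∀ t, f t ∈ c.C) : Continuous fun t => c.proj (f t) (hm t) :=
  continuous_quotient_mk'.comp (hf.subtype_mk hm)

/-- The apex, the image of the collapsed segment, is a ramification point. -/
theorem ramification_apex (c : Choice) (hp : ((0 : ℝ), (0 : ℝ), (0 : ℝ)) ∈ c.C) :
    IsRamificationPoint (c.proj (0, 0, 0) hp) := by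
  have h34 : (3 / 4 : ℝ) ∈ cantorSet := mem_iInter.2 fun n => (quarters_mem_preCantorSet n).2
  let v : Fin 3 → ℝ := ![0, 1 / 4, 3 / 4]
  have hv : ∀ i, v i ∈ cantorSet := by
    intro i
    fin_cases i
    · exact zero_mem_cantorSet
    · exact quarter_mem_cantorSet
    · exact h34
  have hvi : Function.Injective v := by
    intro i j hij
    fin_cases i <;> fin_cases j <;>
      first | rfl | (exfalso; revert hij; norm_num [v])
  have hm : ∀ i (t : unitInterval), ((v i, (t : ℝ), (0 : ℝ)) : ℝ × ℝ × ℝ) ∈ c.C :=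
    fun i t => Or.inl (Or.inl ⟨hv i, t.2, rfl⟩)
  refine ⟨fun i t => c.proj (v i, (t : ℝ), 0) (hm i t), fun i => ?_, fun i s t hst => ?_,
    fun i => ?_, fun i j s t hij hst => ?_⟩
  · exact proj_continuous (f := fun t : unitInterval => (v i, (t : ℝ), (0 : ℝ))) (by fun_prop)
      (hm i)
  · rcases proj_eq hst with h | ⟨h1, h2⟩
    · exact Subtype.ext (congrArg (fun p : ℝ × ℝ × ℝ => p.2.1) h)
    · exact Subtype.ext (h1.2.1.trans h2.2.1.symm)
  · refine proj_base ⟨cantorSet_subset_unitInterval (hv i), rfl, rfl⟩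
      ⟨⟨le_rfl, zero_le_one⟩, rfl, rfl⟩
  · rcases proj_eq hst with h | ⟨h1, h2⟩
    · exact absurd (hvi (congrArg Prod.fst h)) hij
    · exact ⟨Subtype.ext h1.2.1, Subtype.ext h2.2.1⟩

/-- Two folded blades starting at the same point create a ramification point. -/
theorem ramification_top (c : Choice) {n m : ℕ} (hnm : n ≠ m) {x x' : cantorSet}
    (hxx : (c.φ n x : ℝ) = c.φ m x') (hx : 0 < c.h x) (hx' : 0 < c.h x')
    (hp : ((c.φ n x : ℝ), (1 : ℝ), (0 : ℝ)) ∈ c.C) :
    IsRamificationPoint (c.proj ((c.φ n x : ℝ), 1, 0) hp) := by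
  let a : Fin 3 → ℝ := ![1, c.h x, c.h x']
  let β : Fin 3 → ℝ := ![0, 1 / (2 * ((n : ℝ) + 1)), 1 / (2 * ((m : ℝ) + 1))]
  have ha : ∀ i, 0 < a i := by
    intro i
    fin_cases i
    · exact one_pos
    · exact hx
    · exact hx'
  have ha1 : ∀ i, a i ≤ 1 := by
    intro i
    fin_cases i
    · exact le_rfl
    · exact (c.mem x).2
    · exact (c.mem x').2
  have hn : (0 : ℝ) < 2 * ((n : ℝ) + 1) := by positivity
  have hm' : (0 : ℝ) < 2 * ((m : ℝ) + 1) := by positivity
  have hnm' : (1 : ℝ) / (2 * ((n : ℝ) + 1)) ≠ 1 / (2 * ((m : ℝ) + 1)) := by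
    intro h
    rw [div_eq_div_iff hn.ne' hm'.ne'] at h
    apply hnm
    have : (n : ℝ) = m := by linarith
    exact_mod_cast this
  have hβ : Function.Injective β := by
    have h1 : (0 : ℝ) < 1 / (2 * ((n : ℝ) + 1)) := by positivity
    have h2 : (0 : ℝ) < 1 / (2 * ((m : ℝ) + 1)) := by positivity
    intro i j hij
    fin_cases i <;> fin_cases j
    · rfl
    · exact absurd hij h1.ne
    · exact absurd hij h2.ne
    · exact absurd hij h1.ne'
    · rfl
    · exact absurd hij hnm'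
    · exact absurd hij h2.ne'
    · exact absurd hij hnm'.symm
    · rfl
  have hm : ∀ i (t : unitInterval),
      (((c.φ n x : ℝ), 1 - a i * t / 2, a i * t * β i) : ℝ × ℝ × ℝ) ∈ c.C := by
    intro i t
    have ht := t.2
    fin_cases i
    · refine Or.inl (Or.inl ⟨e_mem c n x, ?_, ?_⟩)
      · show 1 - 1 * (t : ℝ) / 2 ∈ Icc (0 : ℝ) 1
        exact ⟨by linarith [ht.2], by linarith [ht.1]⟩
      · show 1 * (t : ℝ) * 0 = 0
        ring
    · refine Or.inr (mem_iUnion.2 ⟨n, Choice.mem_tilted.2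
        ⟨x, c.h x * t, ⟨mul_nonneg hx.le ht.1, ?_⟩, ?_⟩⟩)
      · exact mul_le_of_le_one_right hx.le ht.2
      · show ((c.φ n x : ℝ), 1 - c.h x * t / 2, c.h x * t * (1 / (2 * ((n : ℝ) + 1)))) = _
        rw [mul_one_div]
    · refine Or.inr (mem_iUnion.2 ⟨m, Choice.mem_tilted.2
        ⟨x', c.h x' * t, ⟨mul_nonneg hx'.le ht.1, ?_⟩, ?_⟩⟩)
      · exact mul_le_of_le_one_right hx'.le ht.2
      · show ((c.φ n x : ℝ), 1 - c.h x' * t / 2, c.h x' * t * (1 / (2 * ((m : ℝ) + 1)))) = _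
        rw [mul_one_div, hxx]
  have hnb : ∀ i (t : unitInterval),
      (((c.φ n x : ℝ), 1 - a i * t / 2, a i * t * β i) : ℝ × ℝ × ℝ) ∉ base := by
    intro i t h
    have h1 : 1 - a i * t / 2 = 0 := h.2.1
    have h2 : a i * t ≤ 1 := mul_le_one₀ (ha1 i) t.2.1 t.2.2
    linarith
  refine ⟨fun i t => c.proj ((c.φ n x : ℝ), 1 - a i * t / 2, a i * t * β i) (hm i t),
    fun i => ?_, fun i s t hst => ?_, fun i => ?_, fun i j s t hij hst => ?_⟩
  · exact proj_continuous
      (f := fun t : unitInterval => ((c.φ n x : ℝ), 1 - a i * t / 2, a i * t * β i))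
      (by fun_prop) (hm i)
  · rcases proj_eq hst with h | ⟨h1, h2⟩
    · have h1 : 1 - a i * s / 2 = 1 - a i * t / 2 := congrArg (fun p : ℝ × ℝ × ℝ => p.2.1) h
      have h2 : a i * (s : ℝ) = a i * t := by linarith
      exact Subtype.ext (mul_left_cancel₀ (ha i).ne' h2)
    · exact absurd h1 (hnb i s)
  · have h0 : (((c.φ n x : ℝ), 1 - a i * ((0 : unitInterval) : ℝ) / 2,
        a i * ((0 : unitInterval) : ℝ) * β i) : ℝ × ℝ × ℝ) = ((c.φ n x : ℝ), 1, 0) := by
      simp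
    simp only [h0]
  · rcases proj_eq hst with h | ⟨h1, h2⟩
    · have h1 : 1 - a i * s / 2 = 1 - a j * t / 2 := congrArg (fun p : ℝ × ℝ × ℝ => p.2.1) h
      have h2 : a i * s * β i = a j * t * β j := congrArg (fun p : ℝ × ℝ × ℝ => p.2.2) h
      have h3 : a i * (s : ℝ) = a j * t := by linarith
      rw [h3] at h2
      have h4 : a j * (t : ℝ) = 0 := by
        by_contra hne
        exact hij (hβ (mul_left_cancel₀ hne h2))
      have h5 : (t : ℝ) = 0 := (mul_eq_zero.1 h4).resolve_left (ha j).ne'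
      rw [h4] at h3
      have h6 : (s : ℝ) = 0 := (mul_eq_zero.1 h3).resolve_left (ha i).ne'
      exact ⟨Subtype.ext h6, Subtype.ext h5⟩
    · exact absurd h1 (hnb i s)

/-- If `F` has at most one ramification point (for instance if it is a fan) then no two folded
blades start at the same point. -/
theorem separated_of_fan (c : Choice)
    (hF : ∀ p q : c.F, IsRamificationPoint p → IsRamificationPoint q → p = q) :
    c.Separated := by
  intro n m hnm x x' hxx
  by_contra hcon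
  push Not at hcon
  obtain ⟨hx, hx'⟩ := hcon
  have h0 : ((0 : ℝ), (0 : ℝ), (0 : ℝ)) ∈ c.C :=
    Or.inl (Or.inr ⟨⟨le_rfl, zero_le_one⟩, rfl, rfl⟩)
  have h1 : ((c.φ n x : ℝ), (1 : ℝ), (0 : ℝ)) ∈ c.C :=
    Or.inl (Or.inl ⟨e_mem c n x, ⟨zero_le_one, le_rfl⟩, rfl⟩)
  rcases proj_eq (hF _ _ (ramification_apex c h0) (ramification_top c hnm hxx hx hx' h1))
    with h | ⟨-, h⟩
  · have : (0 : ℝ) = 1 := congrArg (fun p : ℝ × ℝ × ℝ => p.2.1) h
    norm_num at this
  · have : (1 : ℝ) = 0 := h.2.1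
    norm_num at this

/-- **Main result.** For every comb over the Cantor set, all copies `K_n ⊆ K` of the Cantor set and
all homeomorphisms `φ_n`: if `F` has at most one ramification point (in particular, if `F` is a
fan), then `F` is planar; also `F` is planar if the sets `K_n` are pairwise disjoint. -/
theorem result (c : Choice) :
    ((∀ p q : c.F, IsRamificationPoint p → IsRamificationPoint q → p = q) → Planar c.F) ∧
    ((∀ n m, n ≠ m → Disjoint (c.Kn n) (c.Kn m)) → Planar c.F) := by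
  refine ⟨fun hF => planar_of_separated c (separated_of_fan c hF), fun hd => ?_⟩
  refine planar_of_separated c fun n m hnm x x' hxx => ?_
  exact (Set.disjoint_left.1 (hd n m hnm) (c.φ n x).2 (hxx ▸ (c.φ m x').2)).elim

end

end Pool.Agent.Results.MP_4f06c8_gt.FanPlanar
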